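import Pool.Agent.J6H7.RO.Lng
import Pool.Agent.J6H7.RO.Num

/-!
# Oracles with late information: definitions

`O A` is an oracle which contains the random oracle `A` (the strings with the prefix `pre`) and
further information about `A`, which comes late: the other strings of length at most `N ^ c` do
not depend on the strings of length `N` of `A`, for all large `N`.
-/

set_option autoImplicit false

namespace Pool.Agent.J6H49.PHC

open Pool.Agent.NPC Finset H568R2 Pool.Agent.H676 Pool.Agent.H620R2.Gauge Pool.Agent.H591R3.PHG
open Pool.Agent.J6H7.RO MeasureTheory Filter LangTrAux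

/-- The oracle `O A` contains `A` and late information about `A`. -/
structure Late (pre : List Bool) (O : Oracle → Oracle) : Prop where
  /-- the strings with the prefix `pre` are the strings of `A` -/
  direct : ∀ A x, O A (pre ++ x) = A x
  /-- measurability -/
  meas : MO O
  /-- the other strings of polynomial length do not depend on the strings of length `N` of `A` -/
  slow : ∀ c : ℕ, ∀ᶠ N : ℕ in atTop, ∀ A A' : Oracle,
    (∀ u : List Bool, u.length ≠ N → A u = A' u) →
      ∀ q : List Bool, q.length ≤ N ^ c → (∀ x, q ≠ pre ++ x) → O A q = O A' q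

/-- Remove `K` parameters and the parameter `w`: the string that is left, as a question to the
first oracle. -/
def cutp (pre : List Bool) (K : ℕ) (q : List Bool) : List Bool :=
  pre ++ (unpair (parse K q).2).2

theorem poly_cutp (pre : List Bool) (K : ℕ) : Poly (cutp pre K) := by
  have h : Poly (fun q : List Bool => (unpair (strip K q)).2) :=
    Poly.snd (poly_unpair.comp (poly_strip K))
  exact (Poly.append (NPC.Poly.const pre) h).congr fun q => by
    show pre ++ (unpair (strip K q)).2 = cutp pre K q
    rw [cutp, parse_strip]

theorem cutp_enc (pre : List Bool) (as : List ℕ) (w : ℕ) (z : List Bool) :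
    cutp pre as.length (enc as w z) = pre ++ z := by
  unfold cutp
  rw [LangTrAux.parse_enc]
  dsimp only
  rw [unpair_pairBits]

/-- the hard language -/
def hardp (pre : List Bool) (e : Bool) (k : ℕ) (B : Oracle) : Set (List Bool) :=
  lang (k + 1) (view e (cutp pre (k + 2)) B)

theorem hardp_sig (pre : List Bool) (e : Bool) (k : ℕ) (B : Oracle) :
    IsSig B (k + 2) (hardp pre e k B) :=
  isSig_view (lang_sig _ (k + 1)) (poly_cutp pre (k + 2))

theorem mem_hardp {X : Type} {pre : List Bool} {O : Oracle → Oracle} (hO : Late pre O) (e : Bool)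
    (k : ℕ) (A : Oracle) (as : List ℕ) (hk : as.length = k + 2) (z : X → List Bool) (j : X) :
    enc as 1 (z j) ∈ hardp pre e k (O A) ↔
      Tr (pw as) (fun g : Idx X (pw as) => !(xor e (A (addr z as g)))) j = false := by
  unfold hardp
  rw [mem_lang_iff _ (k + 1) as hk 1 z j]
  have h1 : Tr (1 :: pw as) (leaves (fun j => enc as 1 (z j)) as 1
      (view e (cutp pre (k + 2)) (O A))) j =
      Tr (pw as) (fun g : Idx X (pw as) => !(xor e (A (addr z as g)))) j := by
    show Tr (pw as) (fun g : Idx X (pw as) => decide (∀ i : Fin 1,
      leaves (fun j => enc as 1 (z j)) as 1 (view e (cutp pre (k + 2)) (O A)) (g, i) = false)) j = _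
    congr 1
    funext g
    have h2 : ∀ i : Fin 1, leaves (fun j => enc as 1 (z j)) as 1
        (view e (cutp pre (k + 2)) (O A)) (g, i) = xor e (A (addr z as g)) := by
      intro i
      have hi : i.val = 0 := by omega
      show view e (cutp pre (k + 2)) (O A) (addr (fun j => enc as 1 (z j)) as g ++
        List.replicate i.val true) = _
      rw [hi, List.replicate_zero, List.append_nil, addr_enc]
      show xor e (O A (cutp pre (k + 2) (enc as 1 (addr z as g)))) = _
      rw [← hk, cutp_enc, hO.direct]
    simp only [h2]
    cases xor e (A (addr z as g)) <;> simp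
  rw [h1]

/-! ### The oracle with the changed part of `A`, the rest unchanged -/

open Classical in
/-- The oracle `O A`, where the part with the prefix `pre` is replaced by `B`. -/
noncomputable def mix (pre : List Bool) (O : Oracle → Oracle) (A B : Oracle) : Oracle :=
  fun q => if ∃ x, q = pre ++ x then B (q.drop pre.length) else O A q

theorem mix_pre (pre : List Bool) (O : Oracle → Oracle) (A B : Oracle) (x : List Bool) :
    mix pre O A B (pre ++ x) = B x := by
  unfold mix
  rw [if_pos ⟨x, rfl⟩]
  simp

theorem mix_off {pre : List Bool} (O : Oracle → Oracle) (A B : Oracle) {q : List Bool}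
    (hq : ∀ x, q ≠ pre ++ x) : mix pre O A B q = O A q := by
  unfold mix
  rw [if_neg]
  rintro ⟨x, hx⟩
  exact hq x hx

theorem smp_mix {I : Type} {pos : I → List Bool} (hpos : Function.Injective pos)
    (pre : List Bool) (O : Oracle → Oracle) (A : Oracle) (σ : Bool → Bool) :
    Smp (fun z : I → Bool => mix pre O A (ovw pos (fun g => σ (z g)) A)) := by
  intro q
  by_cases hq : ∃ x, q = pre ++ x
  · obtain ⟨x, rfl⟩ := hq
    by_cases hx : ∃ i, pos i = x
    · obtain ⟨i, rfl⟩ := hx
      refine Or.inr ⟨i, σ, fun z => ?_⟩
      beta_reduce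
      rw [mix_pre, ovw_pos hpos]
    · push Not at hx
      refine Or.inl ⟨A x, fun z => ?_⟩
      beta_reduce
      rw [mix_pre, ovw_off _ _ hx]
  · push Not at hq
    exact Or.inl ⟨O A q, fun z => mix_off O A _ hq⟩

/-! ### Algorithms ask short questions only -/

theorem quant_congr {V V' : List Bool → List Bool} {m : ℕ} : ∀ (k : ℕ) (b : Bool)
    (y : List Bool), (∀ y' : List Bool, y'.length ≤ y.length + k * (2 * m + 1) →
      (V y' = [true] ↔ V' y' = [true])) → (Quant m V k b y ↔ Quant m V' k b y) := by
  intro k
  induction k with
  | zero =>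
    intro b y h
    have := h y (by simp)
    cases b <;> exact this
  | succ k ih =>
    intro b y h
    have key : ∀ (b' : Bool) (w : List Bool), w.length ≤ m →
        (Quant m V k b' (pairBits w y) ↔ Quant m V' k b' (pairBits w y)) := by
      intro b' w hw
      refine ih b' _ fun y' hy' => h y' ?_
      rw [Pool.Agent.H620R2.Gauge.length_pairBits] at hy'
      have e : (k + 1) * (2 * m + 1) = k * (2 * m + 1) + (2 * m + 1) := by ring
      omega
    cases b with
    | true =>
      simp only [Quant]
      exact exists_congr fun w => and_congr_right fun hw => key false w hw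
    | false =>
      simp only [Quant]
      exact forall_congr' fun w => forall_congr' fun hw => key true w hw

theorem out_mix {pre : List Bool} {O : Oracle → Oracle} (hO : Late pre O) (M : Alg)
    (P : Polynomial ℕ) : ∀ᶠ N : ℕ in atTop, ∀ A B : Oracle,
      (∀ u : List Bool, u.length ≠ N → B u = A u) → ∀ y : List Bool,
        y.length ≤ P.eval N → outV M (O B) y = outV M (mix pre O A B) y := by
  obtain ⟨qb, hqb⟩ := Alg.out_local M
  have hc : ∃ c : ℕ, ∀ᶠ N : ℕ in atTop, (qb.comp P).eval N ≤ N ^ c := by
    refine ⟨(qb.comp P).natDegree + 1, ?_⟩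
    filter_upwards [eventually_ge_atTop (max 1 ((qb.comp P).eval 1))] with N hN
    have h1 : 1 ≤ N := (le_max_left _ _).trans hN
    have h2 : (qb.comp P).eval 1 ≤ N := (le_max_right _ _).trans hN
    refine (eval_le_pow _ h1).trans ?_
    rw [pow_succ, mul_comm]
    exact Nat.mul_le_mul_left _ h2
  obtain ⟨c, hc⟩ := hc
  filter_upwards [hc, hO.slow c] with N h1 h2 A B hB y hy
  obtain ⟨Q, _, hQ2, hQ3⟩ := hqb (mix pre O A B) y
  have h3 : M.out (O B) y = M.out (mix pre O A B) y := by
    refine hQ3 _ fun q hq => ?_
    by_cases hpre : ∃ x, q = pre ++ x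
    · obtain ⟨x, rfl⟩ := hpre
      rw [hO.direct, mix_pre]
    · push Not at hpre
      rw [mix_off O A B hpre]
      refine h2 B A hB q ?_ hpre
      refine (hQ2 q hq).trans (le_trans ?_ h1)
      rw [Polynomial.eval_comp]
      exact eval_mono _ hy
  unfold outV
  rw [h3]

end Pool.Agent.J6H49.PHC
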