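import Pool.Agent.J6H49.PHC.Bad
import Pool.Agent.J6H7.RO.Upp
import Pool.Agent.Y626.WX.Time

/-!
# The codes of polynomial space are late information
-/

set_option autoImplicit false

namespace Pool.Agent.J6H49.PHC

open Pool.Agent.NPC Pool.Agent.H620R2.Gauge Pool.Agent.H591R3.PHG
open Pool.Agent.J6H7.RO (MO randomOracle)
open MeasureTheory Filter
open Pool.Agent.TH678.GC (join)
open Pool.Agent.TH678.RS (InTime bt bt_mono bt_pow)
open Pool.Agent.Y626.WX (Cp cod agree_emb loc_emb exists_cp time_coded)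

variable {g : ℕ → SAlg × Polynomial ℕ} {S : ℕ → Polynomial ℕ} {Φ : Oracle → Oracle}

/-- the oracle -/
def oracle (Φ : Oracle → Oracle) (E₀ A : Oracle) : Oracle :=
  join (join A E₀) (cod Φ (join A E₀))

theorem far {α : ℕ → ℕ} (hα : Monotone α) (hα' : Tendsto α atTop atTop) (c : ℕ) :
    ∀ᶠ N : ℕ in atTop, ∀ s, N ≤ s → N ^ c < s ^ (bt α s + 1) := by
  obtain ⟨m, h1, h2, h3⟩ := ((hα'.eventually_ge_atTop c).and
    ((eventually_ge_atTop c).and (eventually_ge_atTop 1))).exists
  filter_upwards [eventually_ge_atTop (2 ^ m)] with N hN s hs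
  have h4 : c ≤ bt α s := by
    have h5 := bt_mono hα (hN.trans hs)
    rw [bt_pow] at h5
    exact le_trans (le_min h1 h2) h5
  have hs2 : 2 ≤ s := by
    calc 2 = 2 ^ 1 := by norm_num
      _ ≤ 2 ^ m := Nat.pow_le_pow_right (by norm_num) h3
      _ ≤ s := hN.trans hs
  calc N ^ c ≤ s ^ c := Nat.pow_le_pow_left hs c
    _ < s ^ (c + 1) := Nat.pow_lt_pow_right (by omega) (by omega)
    _ ≤ s ^ (bt α s + 1) := Nat.pow_le_pow_right (by omega) (by omega)

theorem join_agree {A A' E₀ : Oracle} {L : ℕ}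
    (h : ∀ u : List Bool, u.length < L → A u = A' u) :
    ∀ u : List Bool, u.length < L → join A E₀ u = join A' E₀ u := by
  intro u hu
  match u with
  | [] => rfl
  | false :: z =>
    show A z = A' z
    exact h z (by rw [List.length_cons] at hu; omega)
  | true :: z => rfl

theorem late_coded {α : ℕ → ℕ} (hα : Monotone α) (hα' : Tendsto α atTop atTop)
    (hc : Cp g S (bt α) Φ) (E₀ : Oracle) : Late [false, false] (oracle Φ E₀) := by
  refine ⟨fun A x => rfl, fun q b => ?_, fun c => ?_⟩
  · refine Pool.Agent.H628R3.RO.measurableSet_of_loc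
      (K := {u : List Bool | u.length ≤ q.length}) (List.finite_length_le Bool q.length) ?_
    intro A A' hA
    have h1 : oracle Φ E₀ A q = oracle Φ E₀ A' q := by
      refine loc_emb hc (ℓ := q.length) (fun u hu => ?_) q le_rfl
      exact join_agree (L := q.length + 1) (fun v hv => hA v (by
        show v.length ≤ q.length
        omega)) u (by omega)
    show oracle Φ E₀ A q = b ↔ oracle Φ E₀ A' q = b
    rw [h1]
  · filter_upwards [far hα hα' c] with N hN A A' hA q hq hpre
    have h1 := agree_emb hc (L := N) (T := N ^ c) hN (A := join A E₀) (A' := join A' E₀)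
      (join_agree fun u hu => hA u (by omega)) q hq
    show join (join A E₀) (cod Φ (join A E₀)) q = join (join A' E₀) (cod Φ (join A' E₀)) q
    rw [h1]
    match q with
    | [] => rfl
    | false :: [] => rfl
    | false :: false :: x => exact absurd rfl (hpre x)
    | false :: true :: x => rfl
    | true :: x => rfl

/-- **The main theorem.** -/
theorem main (α : ℕ → ℕ) (hα : Monotone α) (hα' : Tendsto α atTop atTop) :
    ∃ E : Oracle → Oracle,
      (∀ B : Oracle, ∀ L, IsPSPACE (join B (E B)) L → InTime α (join B (E B)) L) ∧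
      ∀ (p : ℕ → unitInterval), (∀ c : ℕ, ∃ᶠ n : ℕ in atTop,
        (n : ℝ) ^ c ≤ p n * 2 ^ n ∧ (n : ℝ) ^ c ≤ (1 - p n) * 2 ^ n) → ∀ E₀ : Oracle,
        ∀ᵐ A ∂(randomOracle p), ∀ k : ℕ, ∃ L : Set (List Bool),
          IsSig (join (join A E₀) (E (join A E₀))) (k + 1) L ∧
          ¬ IsSigPoly (join (join A E₀) (E (join A E₀))) k L := by
  obtain ⟨g, hg⟩ := CC.exists_enum
  obtain ⟨S, Φ, hc⟩ := exists_cp g (bt α)
  refine ⟨cod Φ, fun B L hL => time_coded hg hα hc B hL, fun p hp E₀ => ?_⟩
  filter_upwards [ae_hardp p hp (late_coded hα hα' hc E₀)] with A hA k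
  by_contra hcon
  push Not at hcon
  obtain ⟨L, hL, hn⟩ := hA k
  exact hn (Pool.Agent.J6H7.RO.upward_poly hcon L hL)

end Pool.Agent.J6H49.PHC
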