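import Pool.Agent.J6H49.PHC.Defs
import Pool.Agent.J6H7.RO.Cor

/-!
# The probability that an algorithm with advice decides the hard language
-/

set_option autoImplicit false

namespace Pool.Agent.J6H49.PHC

open Pool.Agent.NPC Finset H568R2 Pool.Agent.H676 Pool.Agent.H620R2.Gauge Pool.Agent.H591R3.PHG
open Pool.Agent.J6H7.RO MeasureTheory Filter LangTrAux

/-- the event that the algorithm is right on the inputs -/
def Agr {X : Type} (pre : List Bool) (e : Bool) (k : ℕ) (O : Oracle → Oracle) (M : Alg) (m : ℕ)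
    (x : X → List Bool) (y : X → List Bool) : Set Oracle :=
  {A | ∀ j, (x j ∈ hardp pre e k (O A) ↔ Quant m (outV M (O A)) k true (y j))}

theorem meas_agr {X : Type} [Finite X] {pre : List Bool} {O : Oracle → Oracle} (hO : MO O)
    (e : Bool) (k : ℕ) (M : Alg) (m : ℕ)
    (x : X → List Bool) (y : X → List Bool) : MeasurableSet (Agr pre e k O M m x y) := by
  have : Agr pre e k O M m x y = ⋂ j, {A | x j ∈ hardp pre e k (O A) ↔
      Quant m (outV M (O A)) k true (y j)} := by
    ext A
    simp [Agr]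
  rw [this]
  refine MeasurableSet.iInter fun j => meas_iff ?_ ?_
  · exact meas_lang (MO_view hO e (cutp pre (k + 2))) (k + 1) (x j)
  · exact meas_quant hO M m k true (y j)

open Classical in
theorem agr_bound {X : Type} [Fintype X] [DecidableEq X] (p : ℕ → unitInterval)
    {pre : List Bool} {O : Oracle → Oracle} (hO : Late pre O) (e : Bool)
    (k : ℕ) (M : Alg) (m N ℓ : ℕ) (as : List ℕ) (hk : as.length = k + 2)
    (z : X → List Bool) (hz : Function.Injective z) (hl : ∀ j, (z j).length + as.sum = N)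
    (y : X → List Bool) (hy : ∀ j, (y j).length ≤ ℓ)
    (hout : ∀ A B : Oracle, (∀ u : List Bool, u.length ≠ N → B u = A u) → ∀ y : List Bool,
        y.length ≤ ℓ + k * (2 * m + 1) → outV M (O B) y = outV M (mix pre O A B) y) (β : ℝ)
    (hβ : ∀ A : Oracle, Ms (bias e (p N)) (pw as) (fun _ => none)
      (fun j => QF m (lf M (fun v : Idx X (pw as) → Bool =>
        mix pre O A (ovw (addr z as) (fun g => sg e (v g)) A))) k true (y j)) ≤ β)
    (hX : Nonempty X) :
    prob p (Agr pre e k O M m (fun j => enc as 1 (z j)) y) ≤ β := by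
  have hl' : ∀ j, (z j).length = N - as.sum := fun j => by have := hl j; omega
  obtain ⟨j0⟩ := hX
  have hinj : Function.Injective (addr z as) := addr_inj z hz _ hl' as
  have hN : ∀ g : Idx X (pw as), (addr z as g).length = N := by
    intro g
    rw [length_addr z _ hl' as g]
    have := hl j0
    omega
  refine prob_le_of_ovw p hinj hN (meas_agr hO.meas e k M m _ y) fun A => ?_
  refine le_trans (le_of_eq ?_) (hβ A)
  rw [Ex_perm (sg e)]
  unfold Ms
  have hb : (fun v => ber (p N) (sg e v)) = ber (bias e (p N)) :=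
    funext fun v => ber_sg e _ v
  rw [hb]
  congr 1
  funext v
  refine if_congr ?_ rfl rfl
  refine forall_congr' fun j => ?_
  rw [mem_hardp hO e k _ as hk z j]
  have hoff : ∀ u : List Bool, u.length ≠ N →
      ovw (addr z as) (fun g => sg e (v g)) A u = A u := by
    intro u hu
    exact ovw_off _ _ fun i hi => hu (hi ▸ hN i)
  have hq : Quant m (outV M (O (ovw (addr z as) (fun g => sg e (v g)) A))) k true (y j) ↔
      Quant m (outV M (mix pre O A (ovw (addr z as) (fun g => sg e (v g)) A))) k true (y j) := by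
    refine quant_congr k true (y j) fun y' hy' => ?_
    rw [hout A _ hoff y' (hy'.trans (by have := hy j; omega))]
  rw [hq, quant_lf M (fun v : Idx X (pw as) → Bool =>
      mix pre O A (ovw (addr z as) (fun g => sg e (v g)) A)) m v k true (y j)]
  have hT : (fun g : Idx X (pw as) => !(xor e (ovw (addr z as) (fun i => sg e (v i)) A
      (addr z as g)))) = val (fun _ => none) v := by
    funext g
    rw [ovw_pos hinj, sg_sg]
    rfl
  rw [hT]
  exact bool_aux _ _

/-- the oracles for which the algorithm works, with some advice -/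
def Badp (pre : List Bool) (e : Bool) (k : ℕ) (O : Oracle → Oracle) (M : Alg)
    (p₁ p₂ : Polynomial ℕ) : Set Oracle :=
  {A | ∃ h : ℕ → List Bool, (∀ n, (h n).length ≤ p₂.eval n) ∧ ∀ x, (x ∈ hardp pre e k (O A) ↔
    Quant (p₁.eval (pairBits x (h x.length)).length) (outV M (O A)) k true
      (pairBits x (h x.length)))}

theorem mem_badp {pre : List Bool} {e : Bool} {k : ℕ} {O : Oracle → Oracle} {A : Oracle}
    (h : IsSigPoly (O A) k (hardp pre e k (O A))) :
    ∃ M p₁ p₂, A ∈ Badp pre e k O M p₁ p₂ := by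
  obtain ⟨L', h, p₂, ⟨V, p₁, ⟨M, hM⟩, hL'⟩, hh, hx⟩ := h
  refine ⟨M, p₁, p₂, h, hh, fun x => ?_⟩
  have hV : outV M (O A) = V := by
    funext y
    unfold outV
    rw [hM]
    rfl
  rw [hV, ← hL']
  exact hx x

theorem badp_le (p : ℕ → unitInterval) {pre : List Bool} {O : Oracle → Oracle}
    (hO : Late pre O) (e : Bool) (k : ℕ) (M : Alg)
    (p₁ p₂ : Polynomial ℕ) : ∃ C N₀ : ℕ, ∀ N : ℕ, N₀ ≤ N → bias e (p N) ≤ 1 / 2 →
      (N : ℝ) ^ C ≤ bias e (p N) * 2 ^ N → prob p (Badp pre e k O M p₁ p₂) ≤ 2 * (1 / 2) ^ N := by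
  classical
  obtain ⟨C, N₀, hC⟩ := exists_numbers k (rh k M p₁ p₂)
  obtain ⟨N₁, hN₁⟩ := eventually_atTop.1 (out_mix hO M (ph k p₁ p₂))
  refine ⟨C, N₀ + N₁ + 1, fun N hN ht2 hNC => ?_⟩
  obtain ⟨u, hu, hR, hnum⟩ := hC N (by omega)
  set t₀ : ℝ := bias e (p N) with ht₀
  have ht0 : 0 < t₀ := by
    have hNpos : (0 : ℝ) < N := by exact_mod_cast (by omega : 0 < N)
    have h1 : (0 : ℝ) < (N : ℝ) ^ C := by positivity
    have h2 : (0 : ℝ) < 2 ^ N := by positivity
    by_contra h3
    push Not at h3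
    have := mul_nonpos_of_nonpos_of_nonneg h3 h2.le
    linarith
  obtain ⟨a, as, ha, hlen, has, hcore⟩ := core k hu ht0 ht2
  have hsum : as.sum ≤ 512 * u * (k + 1) := by
    rw [← hlen]
    exact sum_le_of has
  have hfit := hnum t₀ a as.sum ha hsum hNC
  -- the inputs
  set bs : List ℕ := a :: as with hbs
  have hbl : bs.length = k + 2 := by rw [hbs, List.length_cons, hlen]
  have hbsum : bs.sum = a + as.sum := by rw [hbs, List.sum_cons]
  set z : Fin (2 ^ (u + 11)) → List Bool := fun j =>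
    bitsOf (u + 11) j.val ++ List.replicate (N - bs.sum - (u + 11)) false with hz
  have hzl : ∀ j, (z j).length + bs.sum = N := by
    intro j
    simp only [hz]
    rw [List.length_append, length_bitsOf, List.length_replicate]
    omega
  have hzi : Function.Injective z := by
    intro i j hij
    simp only [hz] at hij
    have h1 := List.append_cancel_right hij
    exact Fin.ext (bitsOf_inj i.isLt j.isLt h1)
  set n₀ : ℕ := N + bs.sum + k + 5 with hn₀
  have hxl : ∀ j, (enc bs 1 (z j)).length = n₀ := by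
    intro j
    rw [enc_len, hbl]
    have := hzl j
    omega
  have hn₀' : n₀ ≤ (nh k).eval N := by
    rw [nh_eval]
    omega
  set R := (rh k M p₁ p₂).eval N with hRdef
  have hRe := rh_eval k M p₁ p₂ N
  set P := (ph k p₁ p₂).eval N with hPdef
  have hPe := ph_eval k p₁ p₂ N
  have hLe := lh_eval k p₂ N
  set c := p₂.eval n₀ with hc
  have hcc : c ≤ p₂.eval ((nh k).eval N) := eval_mono _ hn₀'
  -- the bound for one advice string
  set β : ℝ := (k : ℝ) * (2 ^ (P + 2) * (1 / 2) ^ (2 ^ (2 * u) + 1)) +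
    3 * (1 / 2) ^ (2 ^ u) with hβ
  have hβ0 : 0 ≤ β := by positivity
  have hone : ∀ w : List Bool, w.length ≤ c →
      prob p (Agr pre e k O M (p₁.eval (2 * n₀ + 1 + w.length)) (fun j => enc bs 1 (z j))
        (fun j => pairBits (enc bs 1 (z j)) w)) ≤ β := by
    intro w hw
    set ℓ : ℕ := 2 * n₀ + 1 + w.length with hℓ
    set m : ℕ := p₁.eval ℓ with hm
    have hℓl : ℓ ≤ (lh k p₂).eval N := by omega
    have hmm : m ≤ p₁.eval ((lh k p₂).eval N) := eval_mono _ hℓl
    have hPP : ℓ + k * (2 * m + 1) ≤ P := by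
      rw [hPdef, hPe]
      have : k * (2 * m + 1) ≤ k * (2 * p₁.eval ((lh k p₂).eval N) + 1) :=
        Nat.mul_le_mul_left _ (by omega)
      omega
    refine agr_bound p hO e k M m N ℓ bs hbl z hzi hzl _ (fun j => ?_) (fun A B hB y hy => ?_) β
      (fun A => ?_) ⟨⟨0, by positivity⟩⟩
    · rw [length_pairBits, hxl]
    · exact hN₁ N (by omega) A B hB y (hy.trans hPP)
    have h1 := hcore m ℓ (lf M (fun v : Idx (Fin (2 ^ (u + 11))) (pw bs) → Bool =>
        mix pre O A (ovw (addr z bs) (fun g => sg e (v g)) A))) (fun y hy => by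
          refine dtr_lf (smp_mix (addr_inj z hzi (N - bs.sum) (fun j => by
            have := hzl j; omega) bs) pre O A (sg e)) M y ?_
          have h2 : M.p.eval y.length ≤ M.p.eval P := eval_mono _ (hy.trans hPP)
          have h3 : 2 ^ u ≤ 2 ^ (2 * u) := Nat.pow_le_pow_right (by norm_num) (by omega)
          omega)
      (fun j => pairBits (enc bs 1 (z j)) w) (fun j => by
        rw [length_pairBits, hxl])
    refine h1.trans ?_
    rw [hβ]
    have h4 : (2 : ℝ) ^ (ℓ + k * (2 * m + 1) + 2) ≤ 2 ^ (P + 2) :=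
      pow_le_pow_right₀ (by norm_num) (by omega)
    have h5 := mul_le_mul_of_nonneg_right h4
      (by positivity : (0 : ℝ) ≤ (1 / 2) ^ (2 ^ (2 * u) + 1))
    have h6 := mul_le_mul_of_nonneg_left h5 (Nat.cast_nonneg k : (0 : ℝ) ≤ k)
    linarith
  -- the union over all the advice strings
  set S : ℕ → Set Oracle := fun i => if (str i).length ≤ c then
    Agr pre e k O M (p₁.eval (2 * n₀ + 1 + (str i).length)) (fun j => enc bs 1 (z j))
        (fun j => pairBits (enc bs 1 (z j)) (str i)) else ∅ with hS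
  have hsub : Badp pre e k O M p₁ p₂ ⊆ ⋃ i ∈ Finset.range (2 ^ (c + 1)), S i := by
    rintro A ⟨h, hh, hx⟩
    have hw : (h n₀).length ≤ c := hh n₀
    have hi : idx (h n₀) < 2 ^ (c + 1) := by
      have h1 := idx_lt (h n₀)
      have h2 : 2 ^ ((h n₀).length + 1) ≤ 2 ^ (c + 1) :=
        Nat.pow_le_pow_right (by norm_num) (by omega)
      omega
    simp only [Set.mem_iUnion, Finset.mem_range]
    refine ⟨idx (h n₀), hi, ?_⟩
    simp only [hS]
    rw [str_idx, if_pos hw]
    intro j
    have h3 := hx (enc bs 1 (z j))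
    rw [hxl j, length_pairBits, hxl j] at h3
    exact h3
  have hfin : prob p (⋃ i ∈ Finset.range (2 ^ (c + 1)), S i) ≤ 2 ^ (c + 1) * β := by
    refine (measureReal_biUnion_finset_le _ _).trans ?_
    have h1 : ∀ i ∈ Finset.range (2 ^ (c + 1)), (randomOracle p).real (S i) ≤ β := by
      intro i _
      simp only [hS]
      split_ifs with hi
      · exact hone _ hi
      · rw [measureReal_empty]
        exact hβ0
    refine (Finset.sum_le_card_nsmul _ _ _ h1).trans ?_
    rw [Finset.card_range, nsmul_eq_mul]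
    push_cast
    exact le_rfl
  have hle : prob p (Badp pre e k O M p₁ p₂) ≤ 2 ^ (c + 1) * β :=
    (measureReal_mono hsub (measure_ne_top _ _)).trans hfin
  refine hle.trans ?_
  exact error_le (P := P) (R := R) hu hR le_rfl (by omega)

theorem badp_null (p : ℕ → unitInterval) {pre : List Bool} {O : Oracle → Oracle}
    (hO : Late pre O) (e : Bool)
    (hp : ∀ c : ℕ, ∃ᶠ N : ℕ in atTop, bias e (p N) ≤ 1 / 2 ∧
      (N : ℝ) ^ c ≤ bias e (p N) * 2 ^ N) (k : ℕ) (M : Alg)
    (p₁ p₂ : Polynomial ℕ) : randomOracle p (Badp pre e k O M p₁ p₂) = 0 := by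
  obtain ⟨C, N₀, h⟩ := badp_le p hO e k M p₁ p₂
  have h0 : prob p (Badp pre e k O M p₁ p₂) ≤ 0 := by
    by_contra hcon
    push Not at hcon
    obtain ⟨n, hn⟩ := exists_pow_lt_of_lt_one (half_pos hcon) (by norm_num : (1 / 2 : ℝ) < 1)
    obtain ⟨N, hN, h1, h2⟩ := (Filter.frequently_atTop.1 (hp C)) (max N₀ n)
    have h3 := h N ((le_max_left _ _).trans hN) h1 h2
    have h4 : (1 / 2 : ℝ) ^ N ≤ (1 / 2) ^ n :=
      pow_le_pow_of_le_one (by norm_num) (by norm_num) ((le_max_right _ _).trans hN)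
    linarith
  have h1 : prob p (Badp pre e k O M p₁ p₂) = 0 := le_antisymm h0 measureReal_nonneg
  exact (measureReal_eq_zero_iff).1 h1

theorem ae_hardp (p : ℕ → unitInterval) (hp : ∀ c : ℕ, ∃ᶠ N : ℕ in atTop,
    (N : ℝ) ^ c ≤ p N * 2 ^ N ∧ (N : ℝ) ^ c ≤ (1 - p N) * 2 ^ N) {pre : List Bool}
    {O : Oracle → Oracle} (hO : Late pre O) :
    ∀ᵐ A ∂(randomOracle p), ∀ k, ∃ L, IsSig (O A) (k + 2) L ∧ ¬ IsSigPoly (O A) k L := by
  obtain ⟨e, he⟩ := exists_side p hp
  have h1 : ∀ᵐ A ∂(randomOracle p), ∀ (k : ℕ) (M : Alg) (p₁ p₂ : Polynomial ℕ),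
      A ∉ Badp pre e k O M p₁ p₂ := by
    rw [ae_all_iff]
    intro k
    rw [ae_all_iff]
    intro M
    rw [ae_all_iff]
    intro p₁
    rw [ae_all_iff]
    intro p₂
    rw [ae_iff]
    simp only [not_not]
    exact badp_null p hO e he k M p₁ p₂
  filter_upwards [h1] with A hA k
  refine ⟨hardp pre e k (O A), hardp_sig pre e k (O A), fun hcon => ?_⟩
  obtain ⟨M, p₁, p₂, hM⟩ := mem_badp hcon
  exact hA k M p₁ p₂ hM

end Pool.Agent.J6H49.PHC
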